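import Mathlib

set_option autoImplicit false

namespace Pool.Agent.Results.MP_6f9abf_an.Yes

open MeasureTheory Set Filter Topology Function

variable {Ω : Type} [MeasurableSpace Ω] (P : Measure Ω) (𝕜 : Type) [RCLike 𝕜]
  {E : Type} [AddCommGroup E]

/-- classes of random variables -/
abbrev L0 := Ω →ₘ[P] 𝕜

/-- countable measurable partitions -/
def Part (A : ℕ → Set Ω) : Prop :=
  (∀ n, MeasurableSet (A n)) ∧ Pairwise (Disjoint on A) ∧ ⋃ n, A n = univ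

/-- class of an indicator -/
noncomputable def I {A : Set Ω} (h : MeasurableSet A) : L0 P 𝕜 :=
  .mk (A.indicator 1) (aestronglyMeasurable_one.indicator h)

variable {P}

/-- maximum of finitely many seminorms -/
noncomputable def nQ (Q : Finset (E → L0 P ℝ)) (x : E) (ω : Ω) : ℝ := Q.fold max 0 fun p => p x ω

/-- base at zero of the topology of convergence in probability -/
def Be (S : Set (E → L0 P ℝ)) : Set (Set E) := {U | ∃ (Q : Finset (E → L0 P ℝ)) (ε l : ℝ),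
  ↑Q ⊆ S ∧ 0 < ε ∧ 0 < l ∧ l < 1 ∧ U = {x | 1 - l < P.real {ω | nQ Q x ω < ε}}}

/-- base at zero of the locally convex topology -/
def Bc (S : Set (E → L0 P ℝ)) : Set (Set E) := {U | ∃ (Q : Finset (E → L0 P ℝ)) (ε : L0 P ℝ),
  ↑Q ⊆ S ∧ (∀ᵐ ω ∂P, 0 < ε ω) ∧ U = {x | ∀ᵐ ω ∂P, nQ Q x ω < ε ω}}

/-- continuity on `G` for the group topology with base `B` at zero -/
def Cont (B : Set (Set E)) (G : Set E) (f : E → E) : Prop :=
  ∀ x ∈ G, ∀ V ∈ B, ∃ U ∈ B, ∀ y ∈ G, y - x ∈ U → f y - f x ∈ V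

/-- stable family of seminorms -/
def StP (S : Set (E → L0 P ℝ)) : Prop := ∀ A, Part A → ∀ Q : ℕ → Finset (E → L0 P ℝ),
  (∀ n, ↑(Q n) ⊆ S) → ∃ q ∈ S, ∀ x n, ∀ᵐ ω ∂P, ω ∈ A n → q x ω = nQ (Q n) x ω

variable [DistribMulAction (L0 P 𝕜) E]

/-- random seminorm -/
def SN (p : E → L0 P ℝ) : Prop := (∀ x, 0 ≤ p x) ∧
  (∀ (ξ : L0 P 𝕜) x, ∀ᵐ ω ∂P, p (ξ • x) ω = ‖ξ ω‖ * p x ω) ∧ ∀ x y, p (x + y) ≤ p x + p y

variable (P) in
/-- `y` is the concatenation of the `x n` along the partition -/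
def Glue {A : ℕ → Set Ω} (h : Part A) (x : ℕ → E) (y : E) : Prop :=
  ∀ n, I P 𝕜 (h.1 n) • y = I P 𝕜 (h.1 n) • x n

variable {𝕜}

theorem loc {Q : Finset (E → L0 P ℝ)} (hQ : ∀ p ∈ Q, SN 𝕜 p) {A : ℕ → Set Ω} {h : Part A}
    {x : ℕ → E} {y : E} (g : Glue P 𝕜 h x y) (w : E) :
    ∀ᵐ ω ∂P, ∀ n, ω ∈ A n → nQ Q (y - w) ω = nQ Q (x n - w) ω := by
  refine ae_all_iff.2 fun n => ?_
  have : ∀ p ∈ Q, ∀ᵐ ω ∂P, ω ∈ A n → p (y - w) ω = p (x n - w) ω := fun p hp => by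
    have a := (hQ p hp).2.1 (I P 𝕜 (h.1 n)) (y - w)
    rw [smul_sub, g n, ← smul_sub] at a
    filter_upwards [a, (hQ p hp).2.1 (I P 𝕜 (h.1 n)) (x n - w),
      AEEqFun.coeFn_mk _ ((aestronglyMeasurable_one (β := 𝕜)).indicator (h.1 n))] with ω a b c d
    rw [b, I, c] at a
    simpa [d] using a.symm
  filter_upwards [(ae_ball_iff Q.countable_toSet).2 this] with ω a b
  exact Finset.fold_congr fun p hp => a p hp b

theorem nz {Q : Finset (E → L0 P ℝ)} (hQ : ∀ p ∈ Q, SN 𝕜 p) (e : ℝ) (h : 0 < e) :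
    ∀ᵐ ω ∂P, nQ Q 0 ω < e := by
  have : ∀ p ∈ Q, ∀ᵐ ω ∂P, p 0 ω < e := fun p hp => by
    filter_upwards [(hQ p hp).2.1 0 0, AEEqFun.coeFn_zero (β := 𝕜)] with ω a b
    rw [smul_zero, b] at a
    rw [a]
    simpa using h
  filter_upwards [(ae_ball_iff Q.countable_toSet).2 this] with ω a
  exact (Finset.fold_max_lt _).2 ⟨h, a⟩

omit [AddCommGroup E] in
theorem ms (Q : Finset (E → L0 P ℝ)) (x : E) : Measurable (nQ Q x) := by
  classical
  unfold nQ
  induction Q using Finset.induction with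
  | empty => simp
  | insert p Q h ih =>
    simp only [Finset.fold_insert h]
    exact (p x).measurable.max ih

theorem part (C : ℕ → Set Ω) (h : ∀ n, MeasurableSet (C n)) :
    ∃ D, Part D ∧ ∀ n, ∀ ω ∈ D n, ω ∈ ⋃ n, C n → ω ∈ C n :=
  ⟨disjointed fun n => C n ∪ (⋃ n, C n)ᶜ, ⟨MeasurableSet.disjointed fun n => (h n).union
    (MeasurableSet.iUnion h).compl, disjoint_disjointed _, by
      rw [iUnion_disjointed, ← iUnion_union, union_compl_self]⟩,
    fun n _ a b => (disjointed_subset _ n a).resolve_right (not_not.2 b)⟩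

theorem mx [IsFiniteMeasure P] {T : Type} [Nonempty T] (B : T → Set Ω) (h : ∀ t, MeasurableSet (B t))
    (H : ∀ t : ℕ → T, ∃ s, ∀ᵐ ω ∂P, ω ∈ ⋃ n, B (t n) → ω ∈ B s) :
    ∃ s, ∀ t, ∀ᵐ ω ∂P, ω ∈ B t → ω ∈ B s := by
  obtain ⟨u, -, a, b⟩ := exists_seq_tendsto_sSup (range_nonempty fun t => P (B t))
    (OrderTop.bddAbove _)
  choose t ht using b
  obtain ⟨s, hs⟩ := H t
  refine ⟨s, fun r => ?_⟩
  obtain ⟨v, hv⟩ := H fun n => if n = 0 then r else s
  have c : B s ≤ᵐ[P] B v := hv.mono fun ω a b => a (mem_iUnion.2 ⟨1, b⟩)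
  have d : P (B v) ≤ P (B s) := (le_sSup (mem_range_self v)).trans (le_of_tendsto' a fun n =>
    (ht n).ge.trans (measure_mono_ae (hs.mono fun ω a b => a (mem_iUnion.2 ⟨n, b⟩))))
  filter_upwards [hv, ae_eq_of_ae_subset_of_measure_ge c d (h s).nullMeasurableSet
    (measure_ne_top _ _)] with ω a b c
  exact b.mpr (a (mem_iUnion.2 ⟨0, c⟩))

theorem result {Ω : Type} [MeasurableSpace Ω] (P : Measure Ω) [IsProbabilityMeasure P]
    (𝕜 : Type) [RCLike 𝕜] {E : Type} [AddCommGroup E] [DistribMulAction (L0 P 𝕜) E]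
    (_ : ∀ (a b : L0 P 𝕜) (x : E), (a + b) • x = a • x + b • x)
    (S : Set (E → L0 P ℝ)) (hS : ∀ p ∈ S, SN 𝕜 p) (_ : ∀ x, (∀ p ∈ S, p x = 0) → x = 0)
    (sE : ∀ A (h : Part A) (x : ℕ → E), ∃ y, Glue P 𝕜 h x y) (sS : StP S) (G : Set E)
    (sG : ∀ A (h : Part A) x y, (∀ n, x n ∈ G) → Glue P 𝕜 h x y → y ∈ G)
    (f : E → E) (_ : MapsTo f G G)
    (sf : ∀ A (h : Part A) x y, (∀ n, x n ∈ G) → Glue P 𝕜 h x y → Glue P 𝕜 h (f ∘ x) (f y))
    (hf : Cont (Be S) G f) : Cont (Bc S) G f := by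
  rintro x hx _ ⟨Q, ε, hQ, hε, rfl⟩
  have qs := fun p hp => hS p (hQ hp)
  have : ∀ k : ℕ, ∃ (R : Finset (E → L0 P ℝ)) (e : ℝ) (A : Set Ω), ↑R ⊆ S ∧ 0 < e ∧ MeasurableSet A ∧
      P.real A ≤ 1 / (k + 1) ∧ ∀ y ∈ G, (∀ᵐ ω ∂P, nQ R (y - x) ω < e) →
        ∀ᵐ ω ∂P, ω ∉ A → nQ Q (f y - f x) ω < 1 / (k + 1) := fun k => by
    obtain ⟨_, ⟨R, e, l, hR, e0, l0, -, rfl⟩, H⟩ := hf x hx _ ⟨Q, 1 / (k + 1), 1 / (k + 1) / 2, hQ,
      by positivity, by positivity, by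
        have := Nat.one_div_le_one_div (α := ℝ) k.zero_le
        norm_num at this ⊢
        linarith, rfl⟩
    have rs := fun p hp => hS p (hR hp)
    have : Nonempty {y // y ∈ G ∧ ∀ᵐ ω ∂P, nQ R (y - x) ω < e} := ⟨x, hx, by simpa using nz rs e e0⟩
    have m := fun y => measurableSet_lt (ms Q (f y - f x)) (measurable_const (a := 1 / (k + 1 : ℝ)))
    obtain ⟨s, hs⟩ := mx (P := P) (fun y : {y // y ∈ G ∧ ∀ᵐ ω ∂P, nQ R (y - x) ω < e} =>
      {ω | nQ Q (f y - f x) ω < 1 / (k + 1)}ᶜ) (fun y => (m y).compl) fun t => by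
        obtain ⟨D, hD, d⟩ := part _ fun n => (m (t n)).compl
        obtain ⟨y, hy⟩ := sE D hD fun n => t n
        have c : ∀ ω, ∃ n, ω ∈ D n := fun ω => mem_iUnion.1 (hD.2.2 ▸ mem_univ ω)
        refine ⟨⟨y, sG _ _ _ _ (fun n => (t n).2.1) hy, ?_⟩, ?_⟩
        · filter_upwards [loc rs hy x, ae_all_iff.2 fun n => (t n).2.2] with ω a b
          obtain ⟨n, hn⟩ := c ω
          exact (a n hn).trans_lt (b n)
        · filter_upwards [loc qs (sf _ _ _ _ (fun n => (t n).2.1) hy) (f x)] with ω a b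
          obtain ⟨n, hn⟩ := c ω
          exact fun h => d n ω hn b ((a n hn).symm.trans_lt h)
    refine ⟨R, e, _, hR, e0, (m s).compl, ?_, fun y a b => (hs ⟨y, a, b⟩).mono fun ω a => not_imp_comm.1 a⟩
    have := H s s.2.1 (by
      rw [mem_ofPred_eq, measureReal_congr (show _ =ᵐ[P] univ from eventuallyEq_univ.2 s.2.2)]
      simpa using l0)
    rw [probReal_compl_eq_one_sub (m s)]
    have : 0 < 1 / (k + 1 : ℝ) := by positivity
    simp only [mem_ofPred_eq] at *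
    linarith
  choose R e A h1 h2 h3 h4 h5 using this
  obtain ⟨D, hD, d⟩ := part (fun k => (A k)ᶜ ∩ {ω | 1 / (k + 1) ≤ ε ω}) fun k =>
    (h3 k).compl.inter (measurableSet_le measurable_const ε.measurable)
  have c : ∀ ω, ∃ n, ω ∈ D n := fun ω => mem_iUnion.1 (hD.2.2 ▸ mem_univ ω)
  obtain ⟨q, q1, q2⟩ := sS D hD R h1
  classical
  have md : Measurable fun ω => e (Nat.find (c ω)) := measurable_from_top.comp (measurable_find c hD.1)
  have e1 := AEEqFun.coeFn_mk (μ := P) _ md.aestronglyMeasurable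
  refine ⟨_, ⟨{q}, .mk _ md.aestronglyMeasurable, by simpa using q1,
    e1.mono fun ω h => h ▸ h2 _, rfl⟩, fun y hy H => ?_⟩
  have : ∀ k, ∀ᵐ ω ∂P, ω ∈ D k → ω ∉ A k → nQ Q (f y - f x) ω < 1 / (k + 1) := fun k => by
    obtain ⟨z, hz⟩ := sE D hD fun n => if n = k then y else x
    have g : ∀ n, (if n = k then y else x) ∈ G := fun n => by split_ifs <;> assumption
    have rs := fun p hp => hS p (h1 k hp)
    filter_upwards [loc qs (sf _ _ _ _ g hz) (f x), h5 k z (sG _ _ _ _ g hz) (by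
      filter_upwards [loc rs hz x, nz rs _ (h2 k), H, e1, q2 (y - x) k] with ω a b u v w
      have i := Nat.find_spec (c ω)
      rw [a _ i]
      split_ifs with j
      · rw [v, j] at u
        rw [j] at i
        simpa [← w i] using ((Finset.fold_max_lt _).1 u).2
      · simpa using b)] with ω a b u v
    simpa using (a k u).symm.trans_lt (b v)
  have z : ∀ m : ℕ, ∀ᵐ ω ∂P, ∃ k ≥ m, ω ∉ A k := fun m => by
    rw [ae_iff, ← measureReal_eq_zero_iff]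
    refine le_antisymm (ge_of_tendsto tendsto_one_div_add_atTop_nhds_zero_nat
      ((eventually_ge_atTop m).mono fun k hk => (measureReal_mono fun ω h => ?_).trans (h4 k)))
      measureReal_nonneg
    exact by_contra fun c => h ⟨k, hk, c⟩
  filter_upwards [ae_all_iff.2 this, ae_all_iff.2 z, hε] with ω a b u
  obtain ⟨m, hm⟩ := exists_nat_one_div_lt u
  obtain ⟨k, k1, k2⟩ := b m
  obtain ⟨n, hn⟩ := c ω
  have := d n ω hn (mem_iUnion.2 ⟨k, k2, (Nat.one_div_le_one_div k1).trans hm.le⟩)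
  exact (a n hn this.1).trans_le this.2

end Pool.Agent.Results.MP_6f9abf_an.Yes
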